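import Mathlib

set_option autoImplicit false

namespace Pool.Agent.Results.MP_336050_an.NoTuple

open Matrix

lemma common_eig {V ι : Type*} [AddCommGroup V] [Module ℂ V] [FiniteDimensional ℂ V] [Nontrivial V]
    (f : ι → Module.End ℂ V) (hc : ∀ i j, Commute (f i) (f j)) :
    ∃ v : V, v ≠ 0 ∧ ∀ i, ∃ μ : ℂ, f i v = μ • v := by
  classical
  have hex : ∃ d, ∃ W : Submodule ℂ V, W ≠ ⊥ ∧ (∀ i, ∀ v ∈ W, f i v ∈ W) ∧ Module.finrank ℂ W = d :=
    ⟨_, ⊤, top_ne_bot, fun _ _ _ => trivial, rfl⟩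
  obtain ⟨W, hW, hinv, hd⟩ := Nat.find_spec hex
  obtain ⟨v, hv, hv0⟩ := (Submodule.ne_bot_iff W).1 hW
  refine ⟨v, hv0, fun i => ?_⟩
  have : Nontrivial W := Submodule.nontrivial_iff_ne_bot.2 hW
  obtain ⟨μ, hμ⟩ := Module.End.exists_eigenvalue ((f i).restrict (hinv i))
  obtain ⟨u, hu⟩ := hμ.exists_hasEigenvector
  have hu1 : f i u = μ • (u : V) := congrArg Subtype.val hu.apply_eq_smul
  have hle : W ⊓ (f i).eigenspace μ ≤ W := inf_le_left
  have hmin := Nat.find_min' hex ⟨W ⊓ (f i).eigenspace μ, ?_, ?_, rfl⟩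
  · have heq := Submodule.eq_of_le_of_finrank_le hle (hd ▸ hmin)
    have hv2 : v ∈ W ⊓ (f i).eigenspace μ := heq.symm ▸ hv
    exact ⟨μ, Module.End.mem_eigenspace_iff.1 hv2.2⟩
  · rw [Submodule.ne_bot_iff]
    exact ⟨u, ⟨u.2, Module.End.mem_eigenspace_iff.2 hu1⟩, fun h => hu.2 (Subtype.ext h)⟩
  · rintro j w ⟨hw1, hw2⟩
    refine ⟨hinv j w hw1, Module.End.mem_eigenspace_iff.2 ?_⟩
    have h1 := Module.End.mem_eigenspace_iff.1 hw2
    have h2 : f i (f j w) = f j (f i w) := by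
      have := congrArg (fun g => g w) (hc i j).eq
      simpa using this
    rw [h2, h1, map_smul]

theorem result (n : ℕ) (hn : 3 ≤ n) (m : ℕ) (A : Fin m → Matrix (Fin n) (Fin n) ℝ)
    (hc : ∀ i j, A i * A j = A j * A i) :
    ∃ x : Fin n → ℝ, x ≠ 0 ∧
      ¬ Dense {y : Fin n → ℝ | ∃ k : Fin m → ℕ, y = (List.ofFn fun i => A i ^ k i).prod *ᵥ x} := by
  have : Nonempty (Fin n) := ⟨⟨0, by omega⟩⟩
  obtain ⟨v, hv0, hv⟩ := common_eig (V := Fin n → ℂ)
    (fun i => Matrix.toLin' ((A i).map Complex.ofRealHom)) (fun i j => by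
      show _ * _ = _ * _
      rw [Module.End.mul_eq_comp, Module.End.mul_eq_comp, ← Matrix.toLin'_mul, ← Matrix.toLin'_mul,
        ← Matrix.map_mul, ← Matrix.map_mul, hc])
  obtain ⟨a, ha⟩ : ∃ a : Fin n → ℝ, a = fun r => (v r).re := ⟨_, rfl⟩
  obtain ⟨b, hb⟩ : ∃ b : Fin n → ℝ, b = fun r => (v r).im := ⟨_, rfl⟩
  obtain ⟨W, hW⟩ : ∃ W : Submodule ℝ (Fin n → ℝ), W = Submodule.span ℝ {a, b} := ⟨_, rfl⟩
  have haW : a ∈ W := hW ▸ Submodule.subset_span (by simp)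
  have hbW : b ∈ W := hW ▸ Submodule.subset_span (by simp)
  have hinv : ∀ i, ∀ y ∈ W, A i *ᵥ y ∈ W := by
    intro i
    obtain ⟨μ, hμ⟩ := hv i
    have h1 : A i *ᵥ a = μ.re • a - μ.im • b := by
      ext r
      have := congrArg Complex.re (congrFun hμ r)
      simpa [ha, hb, Matrix.mulVec, dotProduct] using this
    have h2 : A i *ᵥ b = μ.re • b + μ.im • a := by
      ext r
      have := congrArg Complex.im (congrFun hμ r)
      simpa [ha, hb, Matrix.mulVec, dotProduct] using this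
    intro y hy
    rw [hW, Submodule.mem_span_pair] at hy
    obtain ⟨s, t, rfl⟩ := hy
    rw [Matrix.mulVec_add, Matrix.mulVec_smul, Matrix.mulVec_smul, h1, h2]
    exact W.add_mem (W.smul_mem _ (W.sub_mem (W.smul_mem _ haW) (W.smul_mem _ hbW)))
      (W.smul_mem _ (W.add_mem (W.smul_mem _ hbW) (W.smul_mem _ haW)))
  have hpow : ∀ i (k : ℕ), ∀ y ∈ W, (A i ^ k) *ᵥ y ∈ W := by
    intro i k
    induction k with
    | zero => intro y hy; simpa using hy
    | succ k ih => intro y hy; rw [pow_succ, ← Matrix.mulVec_mulVec]; exact ih _ (hinv i y hy)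
  have hlist : ∀ l : List (Matrix (Fin n) (Fin n) ℝ), (∀ M ∈ l, ∀ y ∈ W, M *ᵥ y ∈ W) →
      ∀ y ∈ W, l.prod *ᵥ y ∈ W := by
    intro l
    induction l with
    | nil => intro _ y hy; simpa using hy
    | cons M l ih =>
      intro h y hy
      rw [List.prod_cons, ← Matrix.mulVec_mulVec]
      exact h M (by simp) _ (ih (fun N hN => h N (by simp [hN])) y hy)
  have hne : W ≠ ⊤ := by
    intro h
    have h1 : Module.finrank ℝ W ≤ 2 := by
      rw [hW]
      have := finrank_span_finset_le_card (R := ℝ) ({a, b} : Finset (Fin n → ℝ))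
      have h2 : ({a, b} : Finset (Fin n → ℝ)).card ≤ 2 := Finset.card_le_two
      rw [Set.finrank, Finset.coe_pair] at this
      exact this.trans h2
    rw [h, finrank_top, Module.finrank_fin_fun] at h1
    omega
  have hx : ∃ x ∈ W, x ≠ 0 := by
    by_cases ha0 : a = 0
    · refine ⟨b, hbW, fun hb0 => hv0 ?_⟩
      ext r
      exact Complex.ext (congrFun (ha ▸ ha0) r) (congrFun (hb ▸ hb0) r)
    · exact ⟨a, haW, ha0⟩
  obtain ⟨x, hxW, hx0⟩ := hx
  refine ⟨x, hx0, fun hd => hne ?_⟩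
  have hsub : {y : Fin n → ℝ | ∃ k : Fin m → ℕ, y = (List.ofFn fun i => A i ^ k i).prod *ᵥ x}
      ⊆ (W : Set (Fin n → ℝ)) := by
    rintro _ ⟨k, rfl⟩
    refine hlist _ (fun M hM => ?_) x hxW
    obtain ⟨i, rfl⟩ := List.mem_ofFn.1 hM
    exact hpow i (k i)
  have h1 : Dense (W : Set (Fin n → ℝ)) := hd.mono hsub
  have h2 := W.closed_of_finiteDimensional
  rw [eq_top_iff]
  intro y _
  exact h2.closure_subset (h1 y)

end Pool.Agent.Results.MP_336050_an.NoTuple
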